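import Pool.Agent.Helper391.Wheel.Main

/-! # A criterion for odd wheels in terms of finitely many data of the chromatic polynomial -/

set_option autoImplicit false

namespace Pool.Agent.H108R5.Wheel

open Finset Polynomial
open scoped Classical
open Pool.Agent.Helper391.WheelChi

variable {V : Type} [DecidableEq V]

theorem crit_abs (G : SimpleGraph V) (S : Finset V) (n : ℕ) (hn : 11 ≤ n) (hodd : Odd n)
    (hS : #S = n + 1) (hc1' : (chrom G S).coeff n = -(2 * n))
    (hc2' : (chrom G S).coeff (n - 1) ≤ 2 * n * (n - 1)) (h30 : (chrom G S).eval 3 = 0)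
    (h4' : (chrom G S).eval 4 ≠ 0) (hd0 : (derivative (chrom G S)).eval 0 ≠ 0)
    (hd1 : (derivative (chrom G S)).eval 1 = n - 1)
    (hd2 : (derivative (chrom G S)).eval 2 ≠ 0) :
    ThreeConn G S ∧ #S = n + 1 ∧ ∃ r ∈ S, ∀ y ∈ S, y ≠ r → G.Adj r y ∧ #(nb G S y) = 3 := by
  obtain ⟨hev, hdeg, hmon, hc1, hc2⟩ := (exists_chrom G S).choose_spec
  change (∀ k : ℕ, (chrom G S).eval (k : ℤ) = Ncol G S k) at hev
  change (∀ i, #S = i + 1 → (chrom G S).coeff i = -(ec G S : ℤ)) at hc1
  change (∀ i, #S = i + 2 → 2 * (chrom G S).coeff i = (ec G S : ℤ) * (ec G S - 1) - 2 * tc G S)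
    at hc2
  have hec : ec G S = 2 * n := by
    have h1 := hc1 n hS
    rw [hc1'] at h1
    have : (ec G S : ℤ) = 2 * n := by linarith
    exact_mod_cast this
  have htc : n ≤ tc G S := by
    have h1 := hc2 (n - 1) (by omega)
    rw [hec] at h1
    push_cast at h1
    have : (n : ℤ) ≤ tc G S := by
      nlinarith
    exact_mod_cast this
  have hbb : bb G S = n - 1 := by
    unfold bb
    rw [hd1, hS]
    rw [pow_succ, hodd.neg_one_pow]
    ring
  have hTwo : TwoConn G S := twoConn_of_chrom G S (by omega) hd0 (by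
    rw [hbb]
    have : (11 : ℤ) ≤ n := by exact_mod_cast hn
    omega)
  have hall : ∀ T ∈ cl G 3 S, Thick G S T := fun T hT => all_thick G S hd2 h30 T hT
  have h4 : Ncol G S 4 ≠ 0 := by
    intro h0
    have := hev 4
    rw [h0] at this
    exact h4' (by exact_mod_cast this)
  have hcol : Nonempty {c : S → Fin 4 // ∀ a b : S, G.Adj a b → c a ≠ c b} := by
    unfold Ncol at h4
    exact (Nat.card_ne_zero.1 h4).1
  obtain ⟨c, hc⟩ := hcol
  let D : V → Fin 4 := fun x => if h : x ∈ S then c ⟨x, h⟩ else 0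
  have hth : th G S D = tc G S := by
    unfold th tc
    congr 1
    rw [filter_eq_self]
    intro T hT
    refine ⟨hall T hT, ?_⟩
    simp only [cl, mem_filter, mem_powersetCard] at hT
    obtain ⟨⟨hTS, _⟩, hTc⟩ := hT
    intro a ha b hb hab
    by_contra hne
    have haS := hTS ha
    have hbS := hTS hb
    have hadj := hTc ha hb hne
    simp only [D, dif_pos haS, dif_pos hbS] at hab
    exact hc ⟨a, haS⟩ ⟨b, hbS⟩ hadj hab
  have hjj : jj G S = 0 := by
    unfold jj
    rw [hec, hS]
    push_cast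
    ring
  have hn' : (11 : ℤ) ≤ n := by exact_mod_cast hn
  have htc' : (n : ℤ) ≤ tc G S := by exact_mod_cast htc
  have hevb : Even (bb G S) := by
    rw [hbb]
    obtain ⟨m, hm⟩ := hodd
    exact ⟨m, by rw [hm]; push_cast; ring⟩
  have h3c : ThreeConn G S := by
    apply threeConn_of G S hTwo (by omega) (by rw [hbb]; linarith) hevb (by rw [hjj]) D _ hall
    rw [hbb, hth]
    linarith
  refine ⟨h3c, hS, ?_⟩
  apply wheel_rec G S h3c hjj
  · rw [hbb, hS]; push_cast; ring
  · rw [hS]; omega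

/-- a graph whose chromatic polynomial `P` shares finitely many data with that of the wheel `W_n`,
`n ≥ 11` odd, is the wheel -/
theorem crit (n : ℕ) (hn : 11 ≤ n) (hodd : Odd n) (V : Type) [Fintype V] (H : SimpleGraph V)
    (P : ℤ[X]) (hP : ∀ k : ℕ, P.eval (k : ℤ) = Nat.card (H.Coloring (Fin k)))
    (h1 : P.natDegree = n + 1) (h2 : P.coeff n = -(2 * n))
    (h3 : P.coeff (n - 1) ≤ 2 * n * (n - 1)) (h4 : P.eval 3 = 0) (h5 : P.eval 4 ≠ 0)
    (h6 : (derivative P).eval 0 ≠ 0) (h7 : (derivative P).eval 1 = n - 1)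
    (h8 : (derivative P).eval 2 ≠ 0) : Nonempty (H ≃g Wh n) := by
  classical
  have hPc : chrom H univ = P := by
    apply Polynomial.eq_of_infinite_eval_eq
    apply Set.Infinite.mono (s := Set.range (fun k : ℕ => (k : ℤ)))
    · rintro _ ⟨k, rfl⟩
      change (chrom H univ).eval (k : ℤ) = P.eval (k : ℤ)
      rw [chrom_eval, Ncol_univ, hP k]
    · exact Set.infinite_range_of_injective Nat.cast_injective
  subst hPc
  have hS : #(univ : Finset V) = n + 1 := by
    rw [← h1]
    exact ((exists_chrom H univ).choose_spec.2.1).symm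
  obtain ⟨h3c, hcard, r, hr, hrr⟩ := crit_abs H univ n hn hodd hS h2 h3 h4 h5 h6 h7 h8
  apply wheel_iso n (by omega) V H (by rw [← hcard, card_univ]) r
  · intro y hy
    exact (hrr y (mem_univ y) hy).1
  · intro y hy
    exact (hrr y (mem_univ y) hy).2
  · exact h3c.2 {r} (by simp)

end Pool.Agent.H108R5.Wheel
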